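import Pool.Agent.V5helper38.BP.Fs

/-!
# Base change and gap for the Atiyah conjecture for the powers of a group

Let `C` be a class of groups which contains `G × G` with every group `G`, for example the powers
`G, G × G, …` of one group, or all torsion-free amenable groups. If the kernel dimensions of all
matrices with integer coefficients over the groups of `C` are integers, then so are those of all
matrices with complex coefficients. It is enough that the kernel dimensions of the matrices with
integer coefficients avoid some interval. If a group `G` contains a copy of `G × G`, one can take
for `C` the groups which embed into `G` and obtains statements about `G` itself.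

The known results and the starting results on base change for general groups need a class which is
also closed under free products with free groups, so that they do not apply, for example, to
amenable groups, nor to one group and its powers.

Proof. Let `H` be the direct sum of countably many copies of `G`, and let `k` be a subring of `ℂ`
which is maximal with the property that all kernel dimensions over `k[H]` are integers. If the graph
of the multiplication by `c` is a subspace of `ℓ²(H)²` defined by matrices over `k[H]`, then `c` lies
in `k`; so `k` is a field, and by restriction of scalars and tensor powers it is algebraically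
closed. Suppose that `z` is not in `k`. A matrix over `k[z][H]` with a kernel of nonintegral
dimension gives a pencil over `k[H]` with a kernel at `z` of dimension strictly between `0` and `1`
on which one coordinate is injective. The values of this coordinate on the solutions of the
recurrence of the pencil form subspaces `P` of `ℓ²(H)^(l+1)` of bounded integral dimension. Let
`P_J` be the intersection of the copies of `P` in the factors of `H` with indices in a finite set
`J`. The dimensions of the `P_J` are positive integers, so `P_J = P_J'` for two disjoint sets `J`,
`J'`; a space which lives on two independent subgroups is given by a subspace `Φ` of `ℂ^(l+1)`. It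
contains `(1, z, …, z^l)`, and its equations have coefficients which are defined over `k`, so in
`k`. Hence `z` is algebraic over `k`, a contradiction.
-/

set_option autoImplicit false

noncomputable section

namespace Pool.Agent.Results.MP_95030e_al.BaseChangePowers

/-- The kernel of right multiplication by the matrix `A` on `ℓ²(G)^m`. -/
def kernel {G : Type} [Group G] {m n : ℕ} (A : Matrix (Fin m) (Fin n) (G →₀ ℂ)) :
    Set (lp (fun _ : Fin m × G => ℂ) 2) :=
  {x | ∀ (j : Fin n) (g : G),
    ∑ i : Fin m, (A i j).sum (fun h c => x (i, g * h⁻¹) * c) = 0}

open Classical in
/-- The von Neumann dimension of this kernel: the sum over `i` of one minus the squared distance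
from the basis vector at `(i, 1)` to the kernel, that is, the trace of the projection onto the
kernel. -/
def kerDim {G : Type} [Group G] {m n : ℕ} (A : Matrix (Fin m) (Fin n) (G →₀ ℂ)) : ℝ :=
  ∑ i : Fin m, (1 - (Metric.infDist
    (lp.single 2 (i, (1 : G)) (1 : ℂ) : lp (fun _ : Fin m × G => ℂ) 2) (kernel A)) ^ 2)

/-- **Base change and gap.** Let `C` be a class of groups such that `G × G` is in `C` for every `G`
in `C`, and let `R` be any subring of `ℂ`, for example `ℤ` or `ℚ`. The following are equivalent.

1. All kernel dimensions of matrices over `ℂ[G]`, `G` in `C`, are integers.
2. All kernel dimensions of matrices over `R[G]`, `G` in `C`, are integers.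
3. There is an interval `(a, b)` with `0 ≤ a < b` which contains no kernel dimension of a matrix
   over `R[G]`, `G` in `C`. -/
theorem result (C : (G : Type) → [Group G] → Prop)
    (hsq : ∀ (G : Type) [Group G], C G → C (G × G)) (R : Subring ℂ) :
    List.TFAE [
      ∀ (G : Type) [Group G], C G → ∀ (m n : ℕ) (A : Matrix (Fin m) (Fin n) (G →₀ ℂ)),
        ∃ z : ℤ, kerDim A = z,
      ∀ (G : Type) [Group G], C G → ∀ (m n : ℕ) (A : Matrix (Fin m) (Fin n) (G →₀ ℂ)),
        (∀ i j g, A i j g ∈ R) → ∃ z : ℤ, kerDim A = z,
      ∃ a b : ℝ, 0 ≤ a ∧ a < b ∧ ∀ (G : Type) [Group G], C G →
        ∀ (m n : ℕ) (A : Matrix (Fin m) (Fin n) (G →₀ ℂ)), (∀ i j g, A i j g ∈ R) →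
          ¬ (a < kerDim A ∧ kerDim A < b)] := by
  tfae_have 1 → 2 := fun h G _ hG m n A _ => h G hG m n A
  tfae_have 2 → 3 := by
    intro h
    refine ⟨0, 1, le_rfl, one_pos, ?_⟩
    rintro G _ hG m n A hA ⟨h1, h2⟩
    obtain ⟨z, hz⟩ := h G hG m n A hA
    rw [hz] at h1 h2
    have h3 : 0 < z := by exact_mod_cast h1
    have h4 : z < 1 := by exact_mod_cast h2
    omega
  tfae_have 3 → 1 := by
    rintro ⟨a, b, ha, hab, h⟩ G _ hG m n A
    have hR : ∀ (G : Type) [Group G], C G → V5helper38.BP.IntR R G := by
      apply V5helper38.BP.gap_prod hsq a b ha hab
      intro H _ hH v hv
      obtain ⟨m', n', A', hA', rfl⟩ := W656.VA.exists_kerDim hv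
      exact h H hH m' n' A' hA'
    exact V5helper38.BP.base_change_prod hsq hR ⊤ G hG _
      (W656.VA.val_kerDim A (fun _ _ _ => Subring.mem_top _))
  tfae_finish

end Pool.Agent.Results.MP_95030e_al.BaseChangePowers
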