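import Pool.Agent.V5helper65.OM.F3

/-!
# The Atiyah conjecture for torsion-free groups and matrices of bounded size

If the Atiyah conjecture fails for some torsion-free group, then there are finitely many integer
matrices `N_1, …, N_d` of one size and one torsion-free group `G` such that *every* real number
between `0` and `1` is the kernel dimension of `N_1 g_1 + ⋯ + N_d g_d` for some `g_1, …, g_d ∈ G`.
Hence the Atiyah conjecture for all torsion-free groups (for all complex matrices) is equivalent to
the following statement on sparse integer matrices: for every `n` there is an `ε > 0` such that the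
kernel dimension of a matrix over `ℤ[G]`, `G` torsion-free, with at most `n` terms (the absolute
values of the coefficients have sum at most `n`) is either zero or at least `ε`; it is even enough
that for every `n` and for every torsion-free group `G` there is such an `ε`.

Outline.  A counterexample gives, by the all-or-nothing theorem of the starting library
(`MP_95030e_al.AllOrNothing`), kernels of dimension `1/2`.  The lamp machine of `TH25.AD` turns such
a kernel and a set `S ⊆ ℕ` into a matrix whose kernel dimension is a constant plus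
`∑_{n ∈ S} 2^(-n-2)`.  Here we show that the matrix can be written formally, over the free product of
the group with a free group with three generators, so that only the homomorphism to the torsion-free
group depends on `S`; direct sums and cuts by free generators, also done formally, lead to the
interval `[0, 1]`, and a formal matrix with integer coefficients is a pencil.
-/

set_option autoImplicit false

noncomputable section

namespace Pool.Agent.Results.MP_95030e_al.OnePencil

/-- The kernel of right multiplication by the matrix `A` on `ℓ²(G)^m`. -/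
def kernel {G : Type} [Group G] {m n : ℕ} (A : Matrix (Fin m) (Fin n) (G →₀ ℂ)) :
    Set (lp (fun _ : Fin m × G => ℂ) 2) :=
  {x | ∀ (j : Fin n) (g : G),
    ∑ i : Fin m, (A i j).sum (fun h c => x (i, g * h⁻¹) * c) = 0}

open Classical in
/-- The von Neumann dimension of this kernel: the sum over `i` of one minus the squared distance
from the basis vector at `(i, 1)` to the kernel, that is, the trace of the projection onto the
kernel. -/
def kerDim {G : Type} [Group G] {m n : ℕ} (A : Matrix (Fin m) (Fin n) (G →₀ ℂ)) : ℝ :=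
  ∑ i : Fin m, (1 - (Metric.infDist
    (lp.single 2 (i, (1 : G)) (1 : ℂ) : lp (fun _ : Fin m × G => ℂ) 2) (kernel A)) ^ 2)

/-- `G` is torsion-free. -/
def TorsionFree (G : Type) [Group G] : Prop := ∀ g : G, ∀ n : ℕ, 0 < n → g ^ n = 1 → g = 1

/-- `C` is a class of torsion-free groups which is closed under subgroups and isomorphisms
(injective homomorphisms into a member), direct products of arbitrary families, semidirect products
with `ℤ`, and free products with free groups of finite rank. -/
structure ClosedClass (C : (G : Type) → [Group G] → Prop) : Prop where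
  torsionFree : ∀ (G : Type) [Group G], C G → TorsionFree G
  subgroup : ∀ (G H : Type) [Group G] [Group H] (f : G →* H), Function.Injective f → C H → C G
  product : ∀ (I : Type) (G : I → Type) [∀ i, Group (G i)], (∀ i, C (G i)) → C (∀ i, G i)
  semidirect : ∀ (G : Type) [Group G] (s : MulAut G), C G →
    C (G ⋊[zpowersHom (MulAut G) s] Multiplicative ℤ)
  freeProduct : ∀ (G : Type) [Group G] (m : ℕ), C G → C (Monoid.Coprod G (FreeGroup (Fin m)))

/-- The matrix `N_1 g_1 + ⋯ + N_d g_d` over the group ring. -/
def pencil {G : Type} [Group G] {m n d : ℕ} (N : Fin d → Matrix (Fin m) (Fin n) ℤ)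
    (g : Fin d → G) : Matrix (Fin m) (Fin n) (G →₀ ℂ) :=
  fun i j => ∑ k, Finsupp.single (g k) (N k i j : ℂ)

/-- The sum of the absolute values of all coefficients of all entries of `A`. -/
def size {G : Type} {m n : ℕ} (A : Matrix (Fin m) (Fin n) (G →₀ ℂ)) : ℝ :=
  ∑ i, ∑ j, (A i j).sum fun _ c => ‖c‖

/-- All coefficients of all entries of `A` are integers. -/
def Integral {G : Type} {m n : ℕ} (A : Matrix (Fin m) (Fin n) (G →₀ ℂ)) : Prop :=
  ∀ i j g, ∃ z : ℤ, A i j g = z

open Pool.Agent Pool.Agent.TH25.AD

theorem cls {C : (G : Type) → [Group G] → Prop} (h : ClosedClass C) : Cls C :=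
  ⟨h.torsionFree, h.subgroup, h.product, h.semidirect, h.freeProduct⟩

theorem dvd_one_of_tf {G : Type} [Group G] (h : TorsionFree G) {d : ℕ} (hd : W656.VA.IsLcm G d) :
    d = 1 := by
  have h1 := hd.2.2 1 (fun K hK => (W656.VA.isLcm_one h).2.1 K hK)
  exact Nat.dvd_one.1 h1

theorem tf_of_isLcm {G : Type} [Group G] (h : W656.VA.IsLcm G 1) : TorsionFree G := by
  intro g n hn hg
  have h1 : IsOfFinOrder g := isOfFinOrder_iff_pow_eq_one.2 ⟨n, hn, hg⟩
  have h2 : Finite (Subgroup.zpowers g) := (finite_zpowers.2 h1).to_subtype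
  have h3 := h.2.1 (Subgroup.zpowers g) h2
  rw [Nat.card_zpowers, Nat.dvd_one, orderOf_eq_one_iff] at h3
  exact h3

/-- The torsion-free groups form such a class. -/
theorem closedClass_torsionFree : ClosedClass (fun (G : Type) [Group G] => TorsionFree G) := by
  refine ⟨fun G _ h => h, ?_, ?_, ?_, ?_⟩
  · intro G H _ _ f hf hH g n hn hg
    apply hf
    rw [map_one]
    refine hH _ n hn ?_
    rw [← map_pow, hg, map_one]
  · intro I G _ h g n hn hg
    funext i
    exact h i _ n hn (congrFun hg i)
  · intro G _ s hG g n hn hg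
    have h1 : g.right = 1 := by
      refine tf_int _ n hn ?_
      have := congrArg SemidirectProduct.rightHom hg
      rw [map_pow, map_one] at this
      exact this
    have h2 : g = SemidirectProduct.inl g.left := by
      apply SemidirectProduct.ext
      · rfl
      · rw [h1]
        rfl
    rw [h2, ← map_pow] at hg
    have h3 : g.left ^ n = 1 := by
      apply SemidirectProduct.inl_injective (φ := zpowersHom (MulAut G) s)
      rw [hg, map_one]
    rw [h2, hG _ n hn h3, map_one]
  · intro G _ m hG
    show TorsionFree (Monoid.Coprod G (FreeGroup (Fin m)))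
    exact tf_of_isLcm (W656.VA.IsLcm.coprod (G := G) (W656.VA.isLcm_one hG) m)

theorem conj_bot : ∀ c ∈ (⊥ : Subring ℂ), (starRingEnd ℂ) c ∈ (⊥ : Subring ℂ) := by
  intro c hc
  obtain ⟨k, rfl⟩ := Subring.mem_bot.1 hc
  rw [map_intCast]
  exact Subring.mem_bot.2 ⟨k, rfl⟩

/-- If one value is not an integer, then all numbers are values with integer coefficients. -/
theorem all_values {C : (G : Type) → [Group G] → Prop} (hC : ClosedClass C)
    (h : ¬ ∀ (G : Type) [Group G], C G → ∀ (m n : ℕ) (A : Matrix (Fin m) (Fin n) (G →₀ ℂ)),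
      ∃ z : ℤ, kerDim A = z) (r : ℝ) (hr : 0 ≤ r) : VV C (⊥ : Subring ℂ) r := by
  obtain ⟨G, iG, hG, ρ, hρ, h0, h1⟩ : ∃ (G : Type) (_ : Group G), C G ∧
      ∃ ρ : ℝ, W656.VA.Val (⊥ : Subring ℂ) G ρ ∧ 0 < ρ ∧ ρ < 1 := by
    by_contra hno
    have key : ∀ (H : Type) [Group H], C H → ∀ d : ℕ, W656.VA.IsLcm H d → ∀ v : ℝ,
        W656.VA.Val (⊥ : Subring ℂ) H v → ∃ z : ℤ, (d : ℝ) * v = z := by
      intro H _ hH d hd v hv
      by_contra hz
      obtain ⟨m', ρ, hρ, h0, h1⟩ := W656.VA.val_small hd hv hz
      have hd1 := dvd_one_of_tf (hC.torsionFree H hH) hd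
      rw [hd1, Nat.cast_one, one_mul] at h1
      exact hno ⟨_, inferInstance, hC.freeProduct H m' hH, ρ, hρ, h0, h1⟩
    apply h
    intro G _ hG m n A
    obtain ⟨z, hz⟩ := W656.VA.base_change C (fun G H _ _ => (cls hC).prod G H)
      (fun G _ m hG => hC.freeProduct G m hG) ⊥ key ⊤ G hG 1
      (W656.VA.isLcm_one (hC.torsionFree G hG)) _
      (W656.VA.val_kerDim A (fun _ _ _ => Subring.mem_top _))
    rw [Nat.cast_one, one_mul] at hz
    exact ⟨z, hz⟩
  exact VV.all (cls hC) conj_bot ⟨G, iG, hG, hρ⟩ h0 h1 r hr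

/-- If one value is not an integer, then one pencil over one group has all values in `[0, 1]`. -/
theorem one_pencil {C : (G : Type) → [Group G] → Prop} (hC : ClosedClass C)
    (h : ¬ ∀ (G : Type) [Group G], C G → ∀ (m n : ℕ) (A : Matrix (Fin m) (Fin n) (G →₀ ℂ)),
      ∃ z : ℤ, kerDim A = z) : ∃ (G : Type) (_ : Group G), C G ∧
      ∃ (m n d : ℕ) (N : Fin d → Matrix (Fin m) (Fin n) ℤ), ∀ r : ℝ, 0 ≤ r → r ≤ 1 →
        ∃ g : Fin d → G, kerDim (pencil N g) = r := by
  obtain ⟨Γ, _, m, n, M, hM, hval⟩ := V5helper65.OM.FV.all (cls hC) conj_bot (all_values hC h)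
  obtain ⟨d, N, hN⟩ := V5helper65.OM.exists_pencil M hM
  have h1 : ∀ r : Set.Icc (0 : ℝ) 1, ∃ (H : Type) (_ : Group H) (g : Fin d → H), C H ∧
      kerDim (pencil N g) = r := by
    rintro ⟨r, hr0, hr1⟩
    obtain ⟨H, _, φ, hH, hv⟩ := hval r hr0 hr1
    obtain ⟨g, hg⟩ := hN H φ
    exact ⟨H, inferInstance, g, hH, hg.trans hv⟩
  choose H iH g hH hv using h1
  classical
  refine ⟨∀ r, H r, inferInstance, hC.product _ H hH, m, n, d, N, ?_⟩
  intro r hr0 hr1
  set f : H ⟨r, hr0, hr1⟩ →* (∀ r, H r) := MonoidHom.mulSingle H ⟨r, hr0, hr1⟩ with hf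
  have hfi : Function.Injective f := by
    intro a b hab
    have := congrFun hab ⟨r, hr0, hr1⟩
    simpa [hf] using this
  refine ⟨fun k => f (g ⟨r, hr0, hr1⟩ k), ?_⟩
  refine Eq.trans ?_ (hv ⟨r, hr0, hr1⟩)
  show W656.VA.kerDim (V5helper65.OM.pencil N fun k => f (g ⟨r, hr0, hr1⟩ k)) =
    W656.VA.kerDim (V5helper65.OM.pencil N (g ⟨r, hr0, hr1⟩))
  rw [W656.VA.kerDim_eq, W656.VA.kerDim_eq, ← W656.VA.vdim_push f hfi]
  congr 2
  funext j i
  show _ = (W656.VA.cv (V5helper65.OM.pencil N (g ⟨r, hr0, hr1⟩)) j i).mapDomain f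
  rw [V5helper65.OM.cv_pencil, V5helper65.OM.cv_pencil, Finsupp.mapDomain_finset_sum]
  refine Finset.sum_congr rfl fun k _ => ?_
  rw [Finsupp.mapDomain_single, map_inv]

theorem integral_pencil {G : Type} [Group G] {m n d : ℕ} (N : Fin d → Matrix (Fin m) (Fin n) ℤ)
    (g : Fin d → G) : Integral (pencil N g) := by
  classical
  intro i j x
  refine ⟨∑ k, if g k = x then N k i j else 0, ?_⟩
  unfold pencil
  rw [Finsupp.finsetSum_apply]
  push_cast
  refine Finset.sum_congr rfl fun k _ => ?_
  rw [Finsupp.single_apply]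

theorem size_pencil {G : Type} [Group G] {m n d : ℕ} (N : Fin d → Matrix (Fin m) (Fin n) ℤ)
    (g : Fin d → G) : size (pencil N g) ≤ ((∑ i, ∑ j, ∑ k, (N k i j).natAbs : ℕ) : ℝ) := by
  classical
  unfold size
  push_cast
  refine Finset.sum_le_sum fun i _ => Finset.sum_le_sum fun j _ => ?_
  -- the `ℓ¹` norm of a sum of single terms
  have key : ∀ s : Finset (Fin d), (∑ k ∈ s, Finsupp.single (g k) (N k i j : ℂ)).sum
      (fun _ c => ‖c‖) ≤ ∑ k ∈ s, ((N k i j).natAbs : ℝ) := by
    intro s
    induction s using Finset.induction_on with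
    | empty => simp
    | insert a s ha ih =>
      rw [Finset.sum_insert ha, Finset.sum_insert ha]
      refine le_trans ?_ (add_le_add le_rfl ih)
      set u := Finsupp.single (g a) (N a i j : ℂ) with hu
      set v := ∑ k ∈ s, Finsupp.single (g k) (N k i j : ℂ) with hv
      set T := u.support ∪ v.support with hT
      have e1 : (u + v).sum (fun _ c => ‖c‖) = ∑ x ∈ T, ‖(u + v) x‖ :=
        Finsupp.sum_of_support_subset _ Finsupp.support_add _ (by simp)
      have e2 : u.sum (fun _ c => ‖c‖) = ∑ x ∈ T, ‖u x‖ :=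
        Finsupp.sum_of_support_subset _ Finset.subset_union_left _ (by simp)
      have e3 : v.sum (fun _ c => ‖c‖) = ∑ x ∈ T, ‖v x‖ :=
        Finsupp.sum_of_support_subset _ Finset.subset_union_right _ (by simp)
      have e4 : u.sum (fun _ c => ‖c‖) = ((N a i j).natAbs : ℝ) := by
        rw [hu, Finsupp.sum_single_index (by simp), Complex.norm_intCast, Nat.cast_natAbs,
          Int.cast_abs]
      rw [← e4, e1, e2, e3, ← Finset.sum_add_distrib]
      refine Finset.sum_le_sum fun x _ => ?_
      rw [Finsupp.add_apply]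
      exact norm_add_le _ _
  exact key Finset.univ

/-- **The Atiyah conjecture for torsion-free groups and matrices of bounded size.**  Let `C` be a
class of torsion-free groups which is closed under subgroups, direct products, semidirect products
with `ℤ` and free products with free groups of finite rank, for example the class of all torsion-free
groups.  The following are equivalent.

1. The Atiyah conjecture over `ℂ` holds for all groups of `C`: all kernel dimensions are integers.
2. For every `n` there is an `ε > 0` such that the kernel dimension of every integral matrix of size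
   at most `n` over a group of `C` is zero or at least `ε`.
3. For every `n` and every `G` in `C` there is an `ε > 0` such that the kernel dimension of every
   integral matrix of size at most `n` over `G` is zero or at least `ε`.
4. For all integer matrices `N_1, …, N_d` some number in `[0, 1]` is not the kernel dimension of any
   `N_1 g_1 + ⋯ + N_d g_d` with `g_1, …, g_d` in a group of `C`.
5. For all integer matrices `N_1, …, N_d` and every `G` in `C` some number in `[0, 1]` is not the
   kernel dimension of any `N_1 g_1 + ⋯ + N_d g_d` with `g_1, …, g_d` in `G`.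

So if the Atiyah conjecture fails for one torsion-free group, then there are integer matrices
`N_1, …, N_d` and one torsion-free group `G` such that `N_1 g_1 + ⋯ + N_d g_d`, `g_i ∈ G`, has all
real numbers in `[0, 1]` as kernel dimensions. -/
theorem result :
    ClosedClass (fun (G : Type) [Group G] => TorsionFree G) ∧
    ∀ C : (G : Type) → [Group G] → Prop, ClosedClass C → List.TFAE [
      ∀ (G : Type) [Group G], C G → ∀ (m n : ℕ) (A : Matrix (Fin m) (Fin n) (G →₀ ℂ)),
        ∃ z : ℤ, kerDim A = z,
      ∀ k : ℕ, ∃ ε : ℝ, 0 < ε ∧ ∀ (G : Type) [Group G], C G →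
        ∀ (m n : ℕ) (A : Matrix (Fin m) (Fin n) (G →₀ ℂ)), Integral A → size A ≤ k →
          kerDim A = 0 ∨ ε ≤ kerDim A,
      ∀ k : ℕ, ∀ (G : Type) [Group G], C G → ∃ ε : ℝ, 0 < ε ∧
        ∀ (m n : ℕ) (A : Matrix (Fin m) (Fin n) (G →₀ ℂ)), Integral A → size A ≤ k →
          kerDim A = 0 ∨ ε ≤ kerDim A,
      ∀ (m n d : ℕ) (N : Fin d → Matrix (Fin m) (Fin n) ℤ), ∃ r ∈ Set.Icc (0 : ℝ) 1,
        ∀ (G : Type) [Group G], C G → ∀ g : Fin d → G, kerDim (pencil N g) ≠ r,
      ∀ (m n d : ℕ) (N : Fin d → Matrix (Fin m) (Fin n) ℤ), ∀ (G : Type) [Group G], C G →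
        ∃ r ∈ Set.Icc (0 : ℝ) 1, ∀ g : Fin d → G, kerDim (pencil N g) ≠ r] := by
  refine ⟨closedClass_torsionFree, fun C hC => ?_⟩
  have hhalf : ∀ z : ℤ, (z : ℝ) ≠ 1 / 2 := by
    intro z hz
    have h1 : (2 * z : ℝ) = 1 := by linarith
    have h2 : 2 * z = 1 := by exact_mod_cast h1
    omega
  tfae_have 1 → 2 := by
    intro h k
    refine ⟨1, one_pos, ?_⟩
    intro G _ hG m n A _ _
    obtain ⟨z, hz⟩ := h G hG m n A
    have h0 : 0 ≤ kerDim A := W656.VA.val_nonneg
      (W656.VA.val_kerDim (R := ⊤) A (fun _ _ _ => Subring.mem_top _))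
    rw [hz] at h0 ⊢
    have hz0 : 0 ≤ z := by exact_mod_cast h0
    rcases hz0.eq_or_lt with h1 | h1
    · left
      rw [← h1, Int.cast_zero]
    · right
      exact_mod_cast h1
  tfae_have 2 → 3 := by
    intro h k G _ hG
    obtain ⟨ε, hε, h⟩ := h k
    exact ⟨ε, hε, fun m n A hA hs => h G hG m n A hA hs⟩
  tfae_have 3 → 1 := by
    intro h
    by_contra hno
    obtain ⟨G, _, hG, m, n, d, N, hN⟩ := one_pencil hC hno
    obtain ⟨ε, hε, h⟩ := h (∑ i, ∑ j, ∑ k, (N k i j).natAbs) G hG
    obtain ⟨g, hg⟩ := hN (min (ε / 2) 1) (by positivity) (min_le_right _ _)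
    rcases h m n (pencil N g) (integral_pencil N g) (size_pencil N g) with h1 | h1
    · rw [hg] at h1
      have : 0 < min (ε / 2) 1 := by positivity
      linarith
    · rw [hg] at h1
      have := min_le_left (ε / 2) 1
      linarith
  tfae_have 1 → 4 := by
    intro h m n d N
    refine ⟨1 / 2, ⟨by norm_num, by norm_num⟩, ?_⟩
    intro G _ hG g hA
    obtain ⟨z, hz⟩ := h G hG m n (pencil N g)
    exact hhalf z (hz.symm.trans hA)
  tfae_have 4 → 5 := by
    intro h m n d N G _ hG
    obtain ⟨r, hr, h⟩ := h m n d N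
    exact ⟨r, hr, fun g => h G hG g⟩
  tfae_have 5 → 1 := by
    intro h
    by_contra hno
    obtain ⟨G, _, hG, m, n, d, N, hN⟩ := one_pencil hC hno
    obtain ⟨r, hr, h⟩ := h m n d N G hG
    obtain ⟨g, hg⟩ := hN r hr.1 hr.2
    exact h g hg
  tfae_finish

end Pool.Agent.Results.MP_95030e_al.OnePencil
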