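import Pool.Agent.V5helper32.PF.Fin
import Pool.Agent.Results.MP_95030e_al.AllOrNothing
import Pool.Agent.Results.MP_95030e_al.GridKernels

/-!
# The Atiyah conjecture for torsion-free groups and positive semidefinite forms with small diagonal

Let `A` be a positive semidefinite hermitian matrix over the group ring of a torsion-free group with
coefficients in `ℤ`, or in an order of an imaginary quadratic field. If the coefficients of the identity in
the diagonal entries are at most two, the dimension of the kernel of `A` is an integer. There is no
condition on the group, on the size of the matrix or on its norm. With three in place of two this would be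
the Atiyah conjecture: every kernel dimension of a matrix over the rational group ring of a group is the
kernel dimension of a positive semidefinite integer matrix with the diagonal at most three, and if the
conjecture fails for some torsion-free group, then for these matrices all real numbers `r ≥ 0` occur.

For instance `A` may be `H + 2`, where `H` is the adjacency matrix (with signs) of a graph with a free
cofinite action of a torsion-free group `G` and least eigenvalue `≥ -2`: the multiplicity of the
eigenvalue `-2` is an integer. Not all such matrices are of the form `N N*` (root lattices of type `E`).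

Outline of the proof. Let `S` be the square root of the operator `A` on `ℓ²(G)^n` and `r x = S δ_x`. The
inner products of the vectors `r x` are the entries of the infinite matrix `A`, in the discrete ring `R`,
and the lengths `|r x|²` are at most two. Let `M` be the set of the vectors `z` with `⟨r x, z⟩ ∈ R` for all
`x` and `⟨z, y⟩ ∈ R` for all `y` with `⟨r x, y⟩ ∈ R` for all `x`. It is invariant under `G`, closed under weak
limits of bounded sequences, and contains all `r x`; the inner products of its vectors are in `R`. So two
unit vectors of `M` are orthogonal or proportional, and if a vector of length at most two is not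
orthogonal to a unit vector of `M`, it is a combination of it and another one (or zero). If the component
of `r x` (for the relation of not being orthogonal) is infinite, there are infinitely many roots `s ∈ M`
with `⟨s, r x⟩ ≠ 0`, by reflections; a weak limit of them is a unit vector of `M` not orthogonal to `r x`.
So the closed span of the `r x` is the orthogonal sum of the lines of the unit vectors of `M` and of the
spans of finite components. `G` permutes these finite dimensional blocks, with finitely many orbits, and
freely, because it is torsion-free and the entries of `A` have finite support.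
-/

set_option autoImplicit false

noncomputable section

open scoped ComplexOrder

namespace Pool.Agent.Results.MP_95030e_al.PositiveFormsTwo

open Pool.Agent.Results.MP_95030e_al.AllOrNothing (TorsionFree ClosedClass)

/-- The kernel of right multiplication by the matrix `A` on `ℓ²(G)^m`. -/
def kernel {G : Type} [Group G] {m n : ℕ} (A : Matrix (Fin m) (Fin n) (MonoidAlgebra ℂ G)) :
    Set (lp (fun _ : Fin m × G => ℂ) 2) :=
  {x | ∀ (j : Fin n) (g : G), ∑ i : Fin m, (A i j).coeff.sum (fun h c => x (i, g * h⁻¹) * c) = 0}

open Classical in
/-- The von Neumann dimension of this kernel: the sum over `i` of one minus the squared distance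
from the basis vector at `(i, 1)` to the kernel, that is, the trace of the projection onto the
kernel. -/
def kerDim {G : Type} [Group G] {m n : ℕ} (A : Matrix (Fin m) (Fin n) (MonoidAlgebra ℂ G)) : ℝ :=
  ∑ i : Fin m, (1 - (Metric.infDist
    (lp.single 2 (i, (1 : G)) (1 : ℂ) : lp (fun _ : Fin m × G => ℂ) 2) (kernel A)) ^ 2)

/-- The infinite matrix of right multiplication by `A` on `ℓ²(G)^n`: `x A` is the function
`v ↦ ∑_u x(u) opMatrix A u v`. -/
def opMatrix {G : Type} [Group G] {n : ℕ} (A : Matrix (Fin n) (Fin n) (MonoidAlgebra ℂ G)) :
    Matrix (Fin n × G) (Fin n × G) ℂ :=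
  Matrix.of fun u v => (A u.1 v.1).coeff (u.2⁻¹ * v.2)

/-- `A` is hermitian and positive semidefinite: `∑_{u,v} conj (x u) (opMatrix A u v) (x v) ≥ 0` for all
functions `x` with finite support. -/
def Positive {G : Type} [Group G] {n : ℕ} (A : Matrix (Fin n) (Fin n) (MonoidAlgebra ℂ G)) : Prop :=
  (opMatrix A).PosSemidef

/-- The coefficients of the identity in the diagonal entries (they are real) are at most `c`. -/
def DiagonalLE {G : Type} [Group G] {n : ℕ} (A : Matrix (Fin n) (Fin n) (MonoidAlgebra ℂ G))
    (c : ℝ) : Prop := ∀ i, ((A i i).coeff 1).re ≤ c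

/-- All coefficients are integers. -/
def Integral {G : Type} {m n : ℕ} (A : Matrix (Fin m) (Fin n) (MonoidAlgebra ℂ G)) : Prop :=
  ∀ i j g, ∃ z : ℤ, (A i j).coeff g = z

/-- `R` is closed under complex conjugation, and the real numbers in `R` are integers. -/
def Discrete (R : Subring ℂ) : Prop :=
  (∀ a ∈ R, (starRingEnd ℂ) a ∈ R) ∧ ∀ a ∈ R, a.im = 0 → ∃ z : ℤ, a = z

open TH57.Thr.Ati Pool.Agent.V5helper32.PF

theorem kerDim_kap {G : Type} [Group G] {m n : ℕ} (A : Matrix (Fin m) (Fin n) (MonoidAlgebra ℂ G)) :
    kerDim A = kap A := by
  rw [← Pool.Agent.Results.MP_95030e_al.GridKernels.kerDim_kap A]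
  unfold kerDim GridKernels.kerDim
  refine Finset.sum_congr rfl fun i _ => ?_
  have h : kernel A = GridKernels.kernel A := rfl
  rw [h]
  have h2 : (fun a b : Fin m => Classical.propDecidable (a = b)) = instDecidableEqFin m :=
    Subsingleton.elim _ _
  rw [h2]

/-- the matrices of the starting file as matrices over the group ring -/
def conv {G : Type} {m n : ℕ} (A : Matrix (Fin m) (Fin n) (G →₀ ℂ)) :
    Matrix (Fin m) (Fin n) (MonoidAlgebra ℂ G) :=
  Matrix.of fun i j => MonoidAlgebra.ofCoeff (A i j)

theorem kerDim_conv {G : Type} [Group G] {m n : ℕ} (A : Matrix (Fin m) (Fin n) (G →₀ ℂ)) :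
    AllOrNothing.kerDim A = kerDim (conv A) := rfl

theorem level3 {G : Type} [Group G] {m n : ℕ} (A : Matrix (Fin m) (Fin n) (MonoidAlgebra ℂ G))
    (hA : ∀ i j g, ∃ q : ℚ, (A i j).coeff g = q) :
    ∃ (k : ℕ) (M : Matrix (Fin k) (Fin k) (MonoidAlgebra ℂ G)),
      Integral M ∧ Positive M ∧ DiagonalLE M 3 ∧ kerDim M = kerDim A := by
  obtain ⟨k, M, h1, h2, h3, h4⟩ := level3' A hA
  exact ⟨k, M, h1, h2, h3, by rw [kerDim_kap, kerDim_kap, h4]⟩

/-- **Positive semidefinite forms with small diagonal.**

(1) Let `G` be torsion-free, and let `A` be a positive semidefinite hermitian `n × n` matrix over `R[G]`,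
where the ring `R` is `Discrete`, with diagonal at most two. Then the dimension of the kernel of `A` is an
integer.
(2) The rings `ℤ` and `ℤ[ω]`, where `ω` is not real and `ω² = t ω - n` with integers `t` and `n`, are
`Discrete`.
(3) For every group `G`, every kernel dimension of a matrix over `ℚ[G]` is the kernel dimension of a
positive semidefinite integer matrix over `G` with diagonal at most three. So the Atiyah conjecture for
a torsion-free group is the statement (1) with three in place of two.
(4) The torsion-free groups form a `ClosedClass`. For such a class `C`, either all kernel dimensions of all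
complex matrices over all groups of `C` are integers, or every real number `r ≥ 0` is the kernel dimension
of a positive semidefinite integer matrix with diagonal at most three over a finitely generated group in
`C`. -/
theorem result :
    (∀ (G : Type) [Group G], TorsionFree G → ∀ R : Subring ℂ, Discrete R →
      ∀ (n : ℕ) (A : Matrix (Fin n) (Fin n) (MonoidAlgebra ℂ G)),
        (∀ i j g, (A i j).coeff g ∈ R) → Positive A → DiagonalLE A 2 → ∃ z : ℤ, kerDim A = z) ∧
    (Discrete ⊥ ∧ ∀ (ω : ℂ) (t n : ℤ), ω ^ 2 = t * ω - n → t ^ 2 < 4 * n →
      Discrete (Subring.closure {ω})) ∧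
    (∀ (G : Type) [Group G] (m n : ℕ) (A : Matrix (Fin m) (Fin n) (MonoidAlgebra ℂ G)),
      (∀ i j g, ∃ q : ℚ, (A i j).coeff g = q) →
        ∃ (k : ℕ) (M : Matrix (Fin k) (Fin k) (MonoidAlgebra ℂ G)),
          Integral M ∧ Positive M ∧ DiagonalLE M 3 ∧ kerDim M = kerDim A) ∧
    ClosedClass (fun (G : Type) [Group G] => TorsionFree G) ∧
    ∀ C : (G : Type) → [Group G] → Prop, ClosedClass C →
      (∀ (G : Type) [Group G], C G →
        ∀ (m n : ℕ) (A : Matrix (Fin m) (Fin n) (MonoidAlgebra ℂ G)), ∃ z : ℤ, kerDim A = z) ∨
      ∀ r : ℝ, 0 ≤ r → ∃ (G : Type) (_ : Group G), C G ∧ Group.FG G ∧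
        ∃ (k : ℕ) (M : Matrix (Fin k) (Fin k) (MonoidAlgebra ℂ G)),
          Integral M ∧ Positive M ∧ DiagonalLE M 3 ∧ kerDim M = r := by
  refine ⟨fun G _ htf R hR n A hA hp hd => ?_, ⟨⟨disc_bot.conj, disc_bot.int⟩,
    fun ω t n h hn => ⟨(disc_quad h hn).conj, (disc_quad h hn).int⟩⟩,
    fun G _ m n A hA => level3 A hA, AllOrNothing.closedClass_torsionFree, fun C hC => ?_⟩
  · obtain ⟨d, h⟩ := kap_int (A := A) (R := R) ⟨hR.1, hR.2⟩ htf hA hp hd
    refine ⟨n - d, ?_⟩
    rw [kerDim_kap, h, Fintype.card_fin]
    push_cast
    rfl
  · have htf := (AllOrNothing.result.2 C hC ⊥).out 0 1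
    by_cases h : ∀ (G : Type) [Group G], C G → ∀ (m n : ℕ) (A : Matrix (Fin m) (Fin n) (G →₀ ℂ)),
        ∃ z : ℤ, AllOrNothing.kerDim A = z
    · left
      intro G _ hG m n A
      exact h G hG m n (Matrix.of fun i j => (A i j).coeff)
    · right
      intro r hr
      rw [htf] at h
      push Not at h
      obtain ⟨G, iG, hG, hfg, m, n, A, hA, hAr⟩ := h r hr
      obtain ⟨k, M, h1, h2, h3, h4⟩ := level3 (conv A) (fun i j g => by
        obtain ⟨z, hz⟩ := Subring.mem_bot.1 (hA i j g)
        refine ⟨z, ?_⟩
        change A i j g = _
        rw [← hz]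
        push_cast
        rfl)
      refine ⟨G, iG, hG, hfg, k, M, h1, h2, h3, ?_⟩
      rw [h4, ← kerDim_conv, hAr]

end Pool.Agent.Results.MP_95030e_al.PositiveFormsTwo
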