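import Pool.Agent.V5helper38.BP.One

/-!
# All or nothing for small classes of torsion-free groups, for example amenable groups

Let `C` be a class of torsion-free groups which is closed under subgroups, direct products of two
groups, directed unions and semidirect products with `ℤ`, for example the class of all torsion-free
amenable groups. Either all kernel dimensions of complex matrices over the groups of `C` are
integers, or every real number `r ≥ 0` is the kernel dimension of a matrix over `ℤ[G]` for some
finitely generated group `G` in `C`, and there is one group in `C` for which every real number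
`r ≥ 0` occurs. The second case holds if the complex group ring of some group in `C` has zero
divisors.

The starting result `AllOrNothing` of this problem is the same statement for classes which are also
closed under direct products of arbitrary families and under free products with free groups; such
classes contain free groups, and so do not consist of amenable groups.

Proof. By the base change theorem `BaseChangePowers` there is an integral matrix over a group `G` of
`C` with a kernel dimension which is not an integer. For such a matrix with the smallest number of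
columns the kernel has a dimension strictly between `0` and `1` and one coordinate is injective on it
(a counting argument with the kernels with vanishing coordinates replaces the free product). Then
the machine of `AllOrNothing`, whose group can be taken in the restricted wreath product of `G` with
`ℤ` times a solvable group, gives an interval of kernel dimensions; powers and multiples give all
numbers.
-/

set_option autoImplicit false

noncomputable section

namespace Pool.Agent.Results.MP_95030e_al.SmallClasses

/-- The kernel of right multiplication by the matrix `A` on `ℓ²(G)^m`. -/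
def kernel {G : Type} [Group G] {m n : ℕ} (A : Matrix (Fin m) (Fin n) (G →₀ ℂ)) :
    Set (lp (fun _ : Fin m × G => ℂ) 2) :=
  {x | ∀ (j : Fin n) (g : G),
    ∑ i : Fin m, (A i j).sum (fun h c => x (i, g * h⁻¹) * c) = 0}

open Classical in
/-- The von Neumann dimension of this kernel: the sum over `i` of one minus the squared distance
from the basis vector at `(i, 1)` to the kernel, that is, the trace of the projection onto the
kernel. -/
def kerDim {G : Type} [Group G] {m n : ℕ} (A : Matrix (Fin m) (Fin n) (G →₀ ℂ)) : ℝ :=
  ∑ i : Fin m, (1 - (Metric.infDist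
    (lp.single 2 (i, (1 : G)) (1 : ℂ) : lp (fun _ : Fin m × G => ℂ) 2) (kernel A)) ^ 2)

/-- `G` is torsion-free. -/
def TorsionFree (G : Type) [Group G] : Prop := ∀ g : G, ∀ n : ℕ, 0 < n → g ^ n = 1 → g = 1

/-- `G` is amenable (Følner's condition): for every finite set `S` and `ε > 0` there is a nonempty
finite set `F` such that `s F` has at most `ε |F|` elements outside `F` for each `s` in `S`. -/
def Amenable (G : Type) [Group G] : Prop :=
  ∀ (S : Finset G) (ε : ℝ), 0 < ε → ∃ F : Finset G, F.Nonempty ∧
    ∀ s ∈ S, (({x | x ∈ F ∧ s * x ∉ F} : Set G).ncard : ℝ) ≤ ε * F.card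

/-- `C` is a class of torsion-free groups which is closed under subgroups and isomorphisms
(injective homomorphisms into a member), direct products of two groups, directed unions (a group is
in `C` if its finitely generated subgroups are), and semidirect products with `ℤ`. -/
structure SmallClass (C : (G : Type) → [Group G] → Prop) : Prop where
  torsionFree : ∀ (G : Type) [Group G], C G → TorsionFree G
  subgroup : ∀ (G H : Type) [Group G] [Group H] (f : G →* H), Function.Injective f → C H → C G
  product : ∀ (G H : Type) [Group G] [Group H], C G → C H → C (G × H)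
  union : ∀ (G : Type) [Group G], (∀ K : Subgroup G, K.FG → C K) → C G
  semidirect : ∀ (G : Type) [Group G] (s : MulAut G), C G →
    C (G ⋊[zpowersHom (MulAut G) s] Multiplicative ℤ)

open Pool.Agent.V5helper38

theorem kl {C : (G : Type) → [Group G] → Prop} (h : SmallClass C) : AA.Kl C :=
  ⟨h.torsionFree, h.subgroup, h.product, h.union, h.semidirect⟩

theorem smallClass_torsionFree : SmallClass (fun (G : Type) [Group G] => TorsionFree G) :=
  ⟨AA.kl_tf.tf, AA.kl_tf.sub, AA.kl_tf.prod, AA.kl_tf.loc, AA.kl_tf.sd⟩

theorem smallClass_amenable :
    SmallClass (fun (G : Type) [Group G] => TorsionFree G ∧ Amenable G) :=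
  ⟨AA.kl_amen.tf, AA.kl_amen.sub, AA.kl_amen.prod, AA.kl_amen.loc, AA.kl_amen.sd⟩

/-- **All or nothing for small classes.** The torsion-free groups, and the torsion-free amenable
groups, form classes of torsion-free groups closed under subgroups, direct products of two groups,
directed unions and semidirect products with `ℤ`. Let `C` be any such class.

(a) Let `R` be any subring of `ℂ`, for example `ℤ` or `ℚ`. The following are equivalent.

1. All kernel dimensions of matrices over `ℂ[G]`, `G` in `C`, are integers.
2. Some real number `r ≥ 0` is not the kernel dimension of any matrix over `R[G]`, for any finitely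
   generated group `G` in `C`.
3. For every group `G` in `C`, some real number `r ≥ 0` is not the kernel dimension of any matrix
   over `R[G]`.

(b) If `ℂ[G]` has zero divisors for some `G` in `C`, then every real number `r ≥ 0` is the kernel
dimension of a matrix over `ℤ[H]` for some finitely generated group `H` in `C`. -/
theorem result :
    SmallClass (fun (G : Type) [Group G] => TorsionFree G) ∧
    SmallClass (fun (G : Type) [Group G] => TorsionFree G ∧ Amenable G) ∧
    ∀ C : (G : Type) → [Group G] → Prop, SmallClass C →
      (∀ R : Subring ℂ, List.TFAE [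
        ∀ (G : Type) [Group G], C G → ∀ (m n : ℕ) (A : Matrix (Fin m) (Fin n) (G →₀ ℂ)),
          ∃ z : ℤ, kerDim A = z,
        ∃ r : ℝ, 0 ≤ r ∧ ∀ (G : Type) [Group G], C G → Group.FG G →
          ∀ (m n : ℕ) (A : Matrix (Fin m) (Fin n) (G →₀ ℂ)), (∀ i j g, A i j g ∈ R) →
            kerDim A ≠ r,
        ∀ (G : Type) [Group G], C G → ∃ r : ℝ, 0 ≤ r ∧
          ∀ (m n : ℕ) (A : Matrix (Fin m) (Fin n) (G →₀ ℂ)), (∀ i j g, A i j g ∈ R) →
            kerDim A ≠ r]) ∧
      ((∃ (G : Type) (_ : Group G), C G ∧ ∃ x y : MonoidAlgebra ℂ G, x ≠ 0 ∧ y ≠ 0 ∧ x * y = 0) →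
        ∀ r : ℝ, 0 ≤ r → ∃ (H : Type) (_ : Group H), C H ∧ Group.FG H ∧
          ∃ (m n : ℕ) (A : Matrix (Fin m) (Fin n) (H →₀ ℂ)),
            (∀ i j g, ∃ k : ℤ, A i j g = k) ∧ kerDim A = r) := by
  refine ⟨smallClass_torsionFree, smallClass_amenable, fun C hC => ?_⟩
  -- restriction to finitely generated groups
  have hfg : ∀ {R : Subring ℂ} {H : Type} [Group H], C H → ∀ {r : ℝ}, W656.VA.Val R H r →
      ∃ (K : Type) (_ : Group K), C K ∧ Group.FG K ∧ W656.VA.Val R K r := by
    intro R H _ hH r hv
    obtain ⟨K, hK, hv⟩ := Pool.Agent.TH25.AD.fg_val_sub hv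
    exact ⟨K, inferInstance, hC.subgroup K H K.subtype K.subtype_injective hH, hK, hv⟩
  constructor
  · intro R
    have hhalf : ∀ z : ℤ, (z : ℝ) ≠ 1 / 2 := by
      intro z hz
      have h1 : (2 * z : ℝ) = 1 := by linarith
      have h2 : 2 * z = 1 := by exact_mod_cast h1
      omega
    have key : (¬ ∀ (G : Type) [Group G], C G → ∀ (m n : ℕ)
        (A : Matrix (Fin m) (Fin n) (G →₀ ℂ)), ∃ z : ℤ, kerDim A = z) →
        ∃ (H : Type) (_ : Group H), C H ∧ ∀ r : ℝ, 0 ≤ r → W656.VA.Val R H r := by
      intro hno
      push Not at hno
      obtain ⟨G, _, hG, m, n, A, hA⟩ := hno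
      obtain ⟨H, _, hH, hall⟩ := BP.all_one (kl hC) hG
        (W656.VA.val_kerDim A (R := ⊤) (fun _ _ _ => Subring.mem_top _)) (by
          rintro ⟨z, hz⟩
          exact hA z hz)
      exact ⟨H, inferInstance, hH, fun r hr => BP.Val.mono bot_le (hall r hr)⟩
    tfae_have 1 → 2 := by
      intro h
      refine ⟨1 / 2, by norm_num, ?_⟩
      intro G _ hG _ m n A _ hA
      obtain ⟨z, hz⟩ := h G hG m n A
      exact hhalf z (hz.symm.trans hA)
    tfae_have 1 → 3 := by
      intro h G _ hG
      refine ⟨1 / 2, by norm_num, ?_⟩
      intro m n A _ hA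
      obtain ⟨z, hz⟩ := h G hG m n A
      exact hhalf z (hz.symm.trans hA)
    tfae_have 2 → 1 := by
      rintro ⟨r, hr, h⟩
      by_contra hno
      obtain ⟨H, _, hH, hall⟩ := key hno
      obtain ⟨K, _, hK, hKfg, hv⟩ := hfg hH (hall r hr)
      obtain ⟨m, n, A, hA, hAr⟩ := W656.VA.exists_kerDim hv
      exact h K hK hKfg m n A hA hAr
    tfae_have 3 → 1 := by
      intro h
      by_contra hno
      obtain ⟨H, _, hH, hall⟩ := key hno
      obtain ⟨r, hr, h2⟩ := h H hH
      obtain ⟨m, n, A, hA, hAr⟩ := W656.VA.exists_kerDim (hall r hr)
      exact h2 m n A hA hAr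
    tfae_finish
  · rintro ⟨G, _, hG, x, y, hx, hy, hxy⟩ r hr
    obtain ⟨v, hv, hvz⟩ := AA.val_of_zero_div (R := (⊤ : Subring ℂ)) x y hx hy hxy
      (fun _ => Subring.mem_top _)
    obtain ⟨H, _, hH, hall⟩ := BP.all_one (kl hC) hG hv hvz
    obtain ⟨K, _, hK, hKfg, hv⟩ := hfg hH (hall r hr)
    obtain ⟨m, n, A, hA, hAr⟩ := W656.VA.exists_kerDim hv
    refine ⟨K, inferInstance, hK, hKfg, m, n, A, ?_, hAr⟩
    intro i j g
    obtain ⟨k, hk⟩ := Subring.mem_bot.1 (hA i j g)
    exact ⟨k, hk.symm⟩

end Pool.Agent.Results.MP_95030e_al.SmallClasses
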